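import Pool.Agent.X303.Five
import Pool.Agent.X303.Pole

/-!
# The Tate conjectures for the singular and open varieties over finite fields generated by
abelian varieties of dimension at most five and by products of elliptic curves and abelian surfaces

Over an algebraic closure of the field with `p` elements each abelian variety is isogenous to the
reduction of an abelian variety of CM type (Honda, Tate). So an abelian variety over the field with
`p ^ a` elements is modelled by `RedAV`: a finite product of CM types `(E i, Φ i)` with Weil numbers
`π i ∈ E i` that satisfy the formula of Shimura and Taniyama; its cohomology of degree `n`, with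
coefficients in the field `Ω` of the complex numbers, consists of the alternating `n`-forms on
`Ω ⊗ H_1`, on which the Frobenius endomorphism acts by `π`.

We consider (`IsFiveOrSurfaces`) the following abelian varieties `Y`, with any Newton polygons: **all
abelian varieties of dimension at most five**, and **all products of elliptic curves and abelian
surfaces** (over an algebraic closure and up to isogeny).

`Homology Ω V` are data of motivic homology `M X i j = H_i^M(X, ℚ(j))` (higher Chow groups) and of
`ℓ`-adic homology `E X i j = H_i(X, ℚ_ℓ(j))` (coefficients extended to `Ω = ℂ`) of schemes `X` over a
finite field, with the Frobenius and the regulator. The class `Generated` contains the schemes with the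
homology groups of the abelian varieties above (`IsFiveOrSurfaces`), it contains the schemes whose motives
are direct summands of finite sums of twists of motives of members, and it contains all of `Z`, `X`,
`U = X ∖ Z` if it contains two of them. For instance it contains all products of curves of genus at
most two, their symmetric powers, the Hilbert schemes of points on products of two such curves and on
abelian and Kummer surfaces, projective and flag bundles over such varieties, blow-ups, and so on.

The theorem: let `X` be a variety - smooth or singular, proper or not - over the field with `q` elements, of
this class, and `i ≥ 0`. Then `CH_i(X) ⊗ ℚ = H_(2 i)^M(X, ℚ(i)) = M X (2 i) i`.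

* (Q1 (a)) The elements of `H_(2 i)(X, ℚ_ℓ(i)) ⊗ ℂ` which are invariant under the Frobenius are the
  linear combinations of the images of the elements of `CH_i(X)` (`RegSurjective`).
* (Q1 (b), rational coefficients) The rank of `B_i(X)`, the image of `cl_i`, is finite, `cl_i` is
  injective up to torsion, and `B_i(X) ⊗ ℂ` is isomorphic to the space of the invariant elements
  (`RegInjective`: elements which are linearly independent over `ℚ` have images which are linearly
  independent over `ℂ`).
* (Q2) Let `W` be the group `H_c^(2 i)(X, ℚ_ℓ) ⊗ ℂ` with the Frobenius endomorphism `F`
  (`IsCompactOf`: it is the dual space of `H_(2 i)(X, ℚ_ℓ(i)) ⊗ ℂ`, up to the twist). As `k` is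
  finite, `dim_a (k) = 0` and `L (X, s) = det (1 - F q ^ (-s) | W)⁻¹` (`lfun q F`). The order of this
  function at `s = i` is `- rank B_i(X)`.

Properties of the theory of cycles that are used for the abelian varieties `Y` (`IsChowS`,
`IsMotivic`): Poincaré duality, the formal properties of correspondences, the nilpotence of
homologically trivial correspondences (Kimura), the operation of the Frobenius endomorphism on higher
Chow groups, the vanishing of the higher rational `K`-groups of a finite field (Quillen), and the
algebraicity of the classes in `AlgS` (theorems of Tate, Markman and Ramón Marí). The Tate conjecture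
for the abelian varieties `Y` (all Tate classes belong to `AlgS`) is proved in the starting files. The
passage from the Tate conjecture to all degrees is due to Soulé, Geisser, Kahn and Jannsen.
-/

set_option autoImplicit false

namespace Pool.Agent.Results.MP_4776b1_ag.FiveAndSurfaces

open Module Pool.Agent.W495.TA Pool.Agent.W495.FM Pool.Agent.X303.TBDual

/-- The statements (a) and (b) of Q1 (rational coefficients) and Q2 for all `X` of the class
generated by these abelian varieties. -/
theorem result (p : ℕ) [Fact p.Prime] (ν : PadicAlgCl p ≃+* ℂ) (V : Type) (T : Homology ℂ V)
    (hT : IsHomology T) (X : V) (hX : Generated T (IsFiveOrSurfaces p ν T) X) (i q : ℕ)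
    (hq : 1 < q) (W : Type) [AddCommGroup W] [Module ℂ W] (F : W →ₗ[ℂ] W)
    (P : T.E X (2 * i) i → W → ℂ) (hW : IsCompactOf T X i q F P) : RegSurjective T X (2 * i) i ∧
    RegInjective T X (2 * i) i ∧ FiniteDimensional ℚ (T.M X (2 * i) i) ∧ meromorphicOrderAt
    (lfun q F) (i : ℂ) = ((-(finrank ℚ (T.M X (2 * i) i) : ℤ) : ℤ) : WithTop ℤ) :=
  ⟨(tb_five hT hX _ _).1, (tb_five hT hX _ _).2.1, finite_M hT (tb_five hT hX) _ _,
    pole_compact hT (tb_five hT hX) hq F P hW⟩

end Pool.Agent.Results.MP_4776b1_ag.FiveAndSurfaces
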