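import Mathlib
import Pool.Agent.X300.RB.Jan

/-!
# Jannsen's conjectures for `A × Z` and for `Z`, singular or not, over finite fields, for almost all
abelian varieties `A`

Let `A` be a product of powers of abelian varieties of dimensions `g i` over the field with `q`
elements (over an extension `k` with `Q = q ^ s` elements and up to isogeny), given by their Weil
polynomials `f i`, and let `Z` be any variety over `k` (a separated scheme of finite type, singular or
not, proper or not). For a variety `X` over `k` we consider, for an integer `b`, the statement `J_b(X)`
(`JannsenN`, `JannsenM`): the map `B_b(X) ⊗ ℚ_ℓ → H_{2 b}(X, ℚ_ℓ(b))^G` is an isomorphism, and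
`ord_{s = b} L(X, s) = - rank B_b(X)`. So `J_b(X)` says that the parts (a) and (b) of Q1 (rationally)
and Q2 are true for `X` and `b`.

The theorem says that for almost all families `f` of Weil polynomials (all but a proportion
`O (q ^ (-1 / 6) log q)`, for all isogeny classes as well as for the ordinary ones) `J_b(A × Z)` is
true if and only if `J_(b - k)(Z)` is true for `0 ≤ k ≤ dim A`, for all `Z` whose Frobenius
eigenvalues lie, up to powers, in a group generated by the nonzero elements of the number field `E`
and `r < g i` further numbers. This condition is fulfilled for any given variety `Z`, with `r = 0`,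
if `E` contains the eigenvalues of Frobenius on the cohomology with compact supports of `Z` and their
conjugates. No finiteness or nilpotence property of the cycles on `Z` or on `A × Z` is assumed.

For a finite field `L(X, s)` is, for the given `b`, the inverse of `det (1 - F Q ^ (-s))` on
`H_c^{2 b}(X)`, so that `- ord_{s = b} L(X, s)` is the multiplicity of the eigenvalue one of Frobenius
on the dual space `H_{2 b}(X, ℚ_ℓ(b))` (`multN`, `multM`); this is how Q2 enters.

The theories are written as in the case of cohomology (`RelData`); only the bidegrees `(2 j, j)`
matter. One takes for the group of `Z` in the bidegree `(2 j, j)` the group `B_{-j}(Z) ⊗ ℚ` (for `T`)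
or `H_{-2 j}(Z, ℚ_ℓ(-j))` (for `R`), and for the group of `A × Z` the group
`B_{dim A - j}(A × Z) ⊗ ℚ` or `H_{2 (dim A - j)}(A × Z, ℚ_ℓ(dim A - j))`. Frobenius on `A` operates by
pull-back, Frobenius on `Z` by the inverse of the push-forward.
-/

set_option autoImplicit false

namespace Pool.Agent.Results.MP_4776b1_ag.HomologicalAlmostAllFactors

open Pool.Agent.Y156.L Pool.Agent.X300.RB

/-- Let `r < g i` for all `i` and let `E` be a number field. Almost all families of abelian
varieties of dimensions `g i` over the field with `q` elements, given by their Weil polynomials
`f i`, have the property `JannsenForRankOver E q r f`: for products `A` of powers of these abelian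
varieties and all varieties `Z` of rank at most `r` over `E`, Jannsen's conjectures for `A × Z` are
equivalent to those for `Z`. -/
theorem result {I : Type} [Fintype I] (g : I → ℕ) (r : ℕ) (hr : ∀ i, r < g i)
    (E : IntermediateField ℚ ℂ) [FiniteDimensional ℚ E] :
    AlmostAll g fun q f => JannsenForRankOver E q r f :=
  count_jan g r hr E

end Pool.Agent.Results.MP_4776b1_ag.HomologicalAlmostAllFactors
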