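import Pool.Agent.X312.FK.Nat

/-!
# Gap laws for the Tate conjectures for the varieties `Y × X ^ n`, `Y` singular or open

Let `k` be an algebraic closure of a finitely generated field, `X` a smooth projective variety
over `k` such that `ℓ`-adic homological and numerical equivalence agree on its powers (known in
characteristic zero for surfaces, abelian varieties and products of them), and `Y` **any variety**
over `k`, which need not be smooth, proper or irreducible. Let `T(Z)` be the space of the Tate
classes in the `ℓ`-adic homology `⊕_i H_(2 i)(Y × Z, ℚ_ℓ(i))`, that is the classes fixed by an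
open subgroup of the Galois group of `k` over a finitely generated field of definition, let `B(Z)`
be the image of the cycles on `Y × Z` with rational coefficients in the homology, and consider the
map `c : B(Z) ⊗ ℚ_ℓ → T(Z)`. Let `ρ(Z)` be the rank of the cycles of all codimensions on `Z`
modulo numerical equivalence, `b` the sum of the Betti numbers of `X` and `ε_n = 4 (m + 3) b ^ (m
+ 5) log (n + 1) / n`. For all `m ≥ 1`:

(1) **statement (a) holds for** `Y × X ^ m` **(the map** `c` **is surjective for** `Z = X ^ m`**),
or for all** `n ≥ 1` **the cokernel of** `c` **for** `Z = X ^ n` **has dimension at least** `(1 -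
ε_n) ρ(X ^ n)`;

(2) **the map** `c` **is injective for** `Z = X ^ m`**, or for all** `n ≥ 1` **the kernel of** `c`
**for** `Z = X ^ n` **has dimension at least** `(1 - ε_n) ρ(X ^ n)`.

So (b) holds for `Y × X ^ m` with rational coefficients, or the kernel or the cokernel of `c` is
large for all `Y × X ^ n`. In the known reductions of the conjecture to smooth projective
varieties `Y × X ^ n` is replaced by varieties of other types, so that bounds of this kind for `Y
× X ^ n` itself do not follow.

The proof. For `Z` a power of `X` the algebraic correspondences act on the spaces `T(Z)` of Tate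
classes and the image `A(Z)` of `c`. If `A(P) ≠ T(P)` for `P = X ^ m`, one takes an idempotent
algebraic correspondence `g` on `P` of minimal rank with `g T(P) ⊄ A(P)` and an element `z` of `g
T(P)` which is not in `A(P)`. The correspondences `x` with `x z ∈ A(P)` have a nilpotent
compression `g x g`, so the trace of `g x` vanishes, and so `dim T(Z) / A(Z)` is at least the rank
of the trace form `(u, v) ↦ tr (g v u)` on the correspondences between `P` and `Z`; for `Z = X ^
n` this rank is compared with `ρ(X ^ n)` by the log-convexity of the sequence of the ranks of the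
intersection forms and by the symmetric group.
-/

set_option autoImplicit false

open CategoryTheory AlgebraicGeometry

universe u v w

namespace Pool.Agent.Results.MP_4776b1_ag.RelativeGapLaws

open Pool.Agent.H914 VarClass Obj WeilCohomology
open Pool.Agent.X312.FK (HomData IsNatural TateClass IndepMod gapBound)
open Pool.Agent.Y133.Half (pw cycRank)

variable {k : Type u} [Field k] {𝒱 : VarClass k} {ops : CycleOps 𝒱}
  {W : WeilCohomology.{u, v} ops}

/-- The sum of the Betti numbers of `X`. -/
noncomputable def totalBetti (W : WeilCohomology.{u, v} ops) (X : 𝒱.Obj) : ℕ :=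
  Module.finrank W.K (W.H X)

/-- **The gap laws for the Tate conjectures.** Here `T.M Z` is in the intended use the homology
`⊕_i H_(2 i)(Y × Z, ℚ_ℓ(i))`, on which the correspondences between smooth projective varieties act,
`ρ` is the action of the Galois group `G`, `S.M Z` is `B(Y × Z) ⊗ ℚ_ℓ`, and `pw X m` is the product of
`m + 1` copies of `X`. -/
theorem result (S T : HomData W) (hS : S.IsFunctor) (hT : T.IsFunctor)
    (c : ∀ Z : 𝒱.Obj, S.M Z → T.M Z) (hc : IsNatural S T c) {G : Type v} [Group G]
    (ρ : ∀ Z : 𝒱.Obj, G → T.M Z → T.M Z) (hρ : T.IsAction ρ) (X : 𝒱.Obj)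
    (hD : ∀ n : ℕ, HomEqNum W (pw X n)) (m : ℕ) :
    -- surjectivity
    ((∀ x : T.M (pw X m), TateClass (ρ _) x → ∃ z, c _ z = x) ∨
    ∀ n : ℕ, IndepMod {x : T.M (pw X n) | TateClass (ρ _) x}
      (Submodule.span W.K (Set.range (c (pw X n))))
      (gapBound (totalBetti W X) (cycRank ops (pw X n)) m n)) ∧
    -- injectivity
    ((∀ z : S.M (pw X m), c _ z = 0 → z = 0) ∨
    ∀ n : ℕ, IndepMod {z : S.M (pw X n) | c _ z = 0} (⊥ : Submodule W.K (S.M (pw X n)))
      (gapBound (totalBetti W X) (cycRank ops (pw X n)) m n)) :=
  ⟨Pool.Agent.X312.FK.coker_law hc hT X hD (Pool.Agent.X312.FK.tateS_stable hρ) m,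
    Pool.Agent.X312.FK.kernel_law hc hS hT X hD m⟩

end Pool.Agent.Results.MP_4776b1_ag.RelativeGapLaws
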